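import Pool.Agent.VLF.Stmts

/-!
# VLF, row STD
-/

set_option autoImplicit false

namespace Pool.Agent.VLF.H20

open Finset Pool.Agent.VLF

theorem iter_aux (P : ℤ) (δ : ℕ → ℤ) (i : ℕ) :
    dlt^[i + 1] (fun x => 1 - P * δ x) = fun x => -P * dlt^[i + 1] δ x := by
  induction i with
  | zero =>
    funext x
    change (1 - P * δ (x + 1)) - (1 - P * δ x) = -P * (δ (x + 1) - δ x)
    ring
  | succ i ih =>
    rw [Function.iterate_succ_apply', ih]
    funext x
    rw [Function.iterate_succ_apply' dlt (i + 1) δ]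
    change -P * dlt^[i + 1] δ (x + 1) - -P * dlt^[i + 1] δ x =
      -P * (dlt^[i + 1] δ (x + 1) - dlt^[i + 1] δ x)
    ring

theorem std (per : PerStmt) : StdStmt := by
  intro p k a j hp hk hj x
  have hP : 0 < p ^ k := pow_pos hp.pos k
  have hD : 1 ≤ Dg p k a := by
    unfold Dg
    exact Nat.mul_pos (pow_pos hp.pos _) (by omega)
  obtain ⟨i, rfl⟩ : ∃ i, j = (i + 1) + 1 := ⟨j - 2, by omega⟩
  set δ : ℕ → ℤ := fun y => if y % p ^ k = p ^ k - 1 then 1 else 0 with hδ
  have h1 : dlt (fun y : ℕ => ((y % p ^ k : ℕ) : ℤ)) =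
      fun y => 1 - ((p : ℤ) ^ k) * δ y := by
    funext y
    change (((y + 1) % p ^ k : ℕ) : ℤ) - ((y % p ^ k : ℕ) : ℤ) = 1 - ((p : ℤ) ^ k) * δ y
    have hlt := Nat.mod_lt y hP
    by_cases h : y % p ^ k = p ^ k - 1
    · have h2 : (y + 1) % p ^ k = 0 := by
        rw [Nat.add_mod, h]
        by_cases h3 : p ^ k = 1
        · rw [h3]
        · rw [Nat.mod_eq_of_lt (a := 1) (by omega), Nat.sub_add_cancel (by omega), Nat.mod_self]
      have h4 : δ y = 1 := if_pos h
      rw [h2, h, h4, Nat.cast_sub (by omega)]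
      push_cast
      ring
    · have h2 : (y + 1) % p ^ k = y % p ^ k + 1 := by
        rw [Nat.add_mod]
        by_cases h3 : p ^ k = 1
        · exfalso
          rw [h3, Nat.mod_one] at h
          omega
        · rw [Nat.mod_eq_of_lt (a := 1) (by omega), Nat.mod_eq_of_lt (by omega)]
      have h4 : δ y = 0 := if_neg h
      rw [h2, h4]
      push_cast
      ring
  rw [Function.iterate_succ_apply, h1, iter_aux]
  have hper : ∀ y, δ (y + p ^ k) = δ y := by
    intro y
    simp only [hδ, Nat.add_mod_right]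
  have h2 := per p k a (i + 1) hp hk δ hper (by
    change Dg p k a ≤ i + 1
    omega) x
  rw [pow_add]
  change (p : ℤ) ^ k * (p : ℤ) ^ a ∣ -(p : ℤ) ^ k * dlt^[i + 1] δ x
  rw [neg_mul, dvd_neg]
  exact mul_dvd_mul_left _ h2

end Pool.Agent.VLF.H20
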